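import Pool.Agent.K7.H50.MZ.Tri

set_option autoImplicit false

/-! Lines to the left of the critical line. -/

namespace Pool.Agent.K7.H50.MU

open MeasureTheory Complex Set Filter Topology Pool.Agent.H306R2 Pool.Agent.W184 Pool.Agent.R313.FM
open Pool.Agent.K7.H50.MZ
open scoped ENNReal

lemma cos_c2 {x B : ℝ} (hB : 0 < B) (h1 : 1 / 2 - B ≤ x) (h2 : x ≤ 1 / 2 + B) :
    1 / 2 ≤ Real.cos ((x - 1 / 2) / B) := by
  refine cos_half ?_
  rw [abs_div, abs_of_pos hB, div_le_one hB, abs_le]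
  constructor <;> linarith

/-- tails outside the window -/
lemma om_tail2 {c B T V r K : ℝ} (hc : 1 / 2 ≤ c) (hB : 0 < B) (hT : |T| ≤ V) (hTV : T ≤ V)
    (hE : 4 * B ≤ Real.exp (r / B))
    (hK : 0 ≤ K) {g : ℝ → ℝ} (hg0 : ∀ t, 0 ≤ g t) (hg : ∀ t, g t ≤ K * (1 + |t|)) (hgc : Continuous g) :
    ∫⁻ t : ℝ, ENNReal.ofReal (g t * om c (T + r) (V - r) B t) ≤
      ENNReal.ofReal ((∫ t in T..V, g t) + 2 * K * (1 + V) * Real.exp (-(Real.exp (r / B) / 2))) := by
  set E := Real.exp (r / B) with hEd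
  have hE0 : 0 < E := Real.exp_pos _
  have hV0 : 0 ≤ V := (abs_nonneg T).trans hT
  have hV1 : 0 ≤ 1 + V := by linarith
  have key : ∀ y : ℝ, 0 ≤ y → (1 + y) * Real.exp (-(c * Real.exp ((r + y) / B))) ≤
      Real.exp (-(E / 2)) * Real.exp (-y) := by
    intro y hy
    have h1 : E * (1 + y / B) ≤ Real.exp ((r + y) / B) := by
      rw [add_div, Real.exp_add]
      refine mul_le_mul_of_nonneg_left ?_ hE0.le
      have := Real.add_one_le_exp (y / B)
      linarith
    have h2 : 1 + y ≤ Real.exp y := by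
      have := Real.add_one_le_exp y
      linarith
    have h3 : 4 * y ≤ E * (y / B) := by
      calc 4 * y = 4 * B * (y / B) := by field_simp
        _ ≤ E * (y / B) := mul_le_mul_of_nonneg_right hE (by positivity)
    have h4 : 1 / 2 * Real.exp ((r + y) / B) ≤ c * Real.exp ((r + y) / B) := by gcongr
    calc (1 + y) * Real.exp (-(c * Real.exp ((r + y) / B))) ≤ Real.exp y * Real.exp (-(E / 2 + 2 * y)) := by
          refine mul_le_mul h2 (Real.exp_le_exp.mpr ?_) (Real.exp_pos _).le (Real.exp_pos _).le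
          linarith
      _ = Real.exp (-(E / 2)) * Real.exp (-y) := by
          rw [← Real.exp_add, ← Real.exp_add]; congr 1; ring
  have e1 : ∫⁻ t in Iic T, ENNReal.ofReal (g t * om c (T + r) (V - r) B t) ≤
      ENNReal.ofReal (K * (1 + V) * Real.exp (-(E / 2))) := by
    have i1 : ∫ t in Iic T, Real.exp (1 * t) = Real.exp (1 * T) / 1 := integral_exp_mul_Iic one_pos T
    have i2 : IntegrableOn (fun t : ℝ => Real.exp (1 * t)) (Iic T) := integrableOn_exp_mul_Iic one_pos T
    calc ∫⁻ t in Iic T, ENNReal.ofReal (g t * om c (T + r) (V - r) B t) ≤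
        ∫⁻ t in Iic T, ENNReal.ofReal (K * (1 + V) * Real.exp (-(E / 2)) * Real.exp (-T) * Real.exp (1 * t)) := by
          refine setLIntegral_mono (by fun_prop) fun t ht => ENNReal.ofReal_le_ofReal ?_
          have ht' : t ≤ T := ht
          have h1 : om c (T + r) (V - r) B t ≤ Real.exp (-(c * Real.exp ((r + (T - t)) / B))) := by
            unfold om
            refine Real.exp_le_exp.mpr ?_
            rw [show T + r - t = r + (T - t) by ring]
            have := Real.exp_pos ((t - (V - r)) / B)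
            have h5 : 0 ≤ c * Real.exp ((t - (V - r)) / B) := mul_nonneg (by linarith) this.le
            linarith
          have h2 : 1 + |t| ≤ (1 + V) * (1 + (T - t)) := by
            have h3 : |t| ≤ V + (T - t) := by
              have h7 : |t| ≤ |T| + |t - T| := by
                have := abs_add_le T (t - T)
                rwa [add_sub_cancel] at this
              rw [abs_of_nonpos (by linarith : t - T ≤ 0)] at h7
              linarith
            nlinarith
          have h4 := key (T - t) (by linarith)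
          have h5 := om_pos c (T + r) (V - r) B t
          calc g t * om c (T + r) (V - r) B t ≤ (K * ((1 + V) * (1 + (T - t)))) *
                Real.exp (-(c * Real.exp ((r + (T - t)) / B))) := by
                refine mul_le_mul ((hg t).trans (mul_le_mul_of_nonneg_left h2 hK)) h1 h5.le ?_
                exact mul_nonneg hK (mul_nonneg (by linarith) (by linarith))
            _ = K * (1 + V) * ((1 + (T - t)) * Real.exp (-(c * Real.exp ((r + (T - t)) / B)))) := by ring
            _ ≤ K * (1 + V) * (Real.exp (-(E / 2)) * Real.exp (-(T - t))) := by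
                gcongr
            _ = _ := by
                rw [show -(T - t) = -T + 1 * t by ring, Real.exp_add]; ring
      _ = ENNReal.ofReal (∫ t in Iic T, K * (1 + V) * Real.exp (-(E / 2)) * Real.exp (-T) * Real.exp (1 * t)) := by
          rw [ofReal_integral_eq_lintegral_ofReal (i2.const_mul _)
            (Filter.Eventually.of_forall fun t => by
              simp only [Pi.zero_apply]
              positivity)]
      _ = _ := by
          rw [integral_const_mul, i1]
          congr 1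
          rw [div_one, mul_assoc, ← Real.exp_add]
          simp
  have e2 : ∫⁻ t in Ioi V, ENNReal.ofReal (g t * om c (T + r) (V - r) B t) ≤
      ENNReal.ofReal (K * (1 + V) * Real.exp (-(E / 2))) := by
    have i1 : ∫ t in Ioi V, Real.exp (-1 * t) = -Real.exp (-1 * V) / (-1) := integral_exp_mul_Ioi (by norm_num) V
    have i2 : IntegrableOn (fun t : ℝ => Real.exp (-1 * t)) (Ioi V) := integrableOn_exp_mul_Ioi (by norm_num) V
    calc ∫⁻ t in Ioi V, ENNReal.ofReal (g t * om c (T + r) (V - r) B t) ≤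
        ∫⁻ t in Ioi V, ENNReal.ofReal (K * (1 + V) * Real.exp (-(E / 2)) * Real.exp V * Real.exp (-1 * t)) := by
          refine setLIntegral_mono (by fun_prop) fun t ht => ENNReal.ofReal_le_ofReal ?_
          have ht' : V < t := ht
          have h1 : om c (T + r) (V - r) B t ≤ Real.exp (-(c * Real.exp ((r + (t - V)) / B))) := by
            unfold om
            refine Real.exp_le_exp.mpr ?_
            rw [show t - (V - r) = r + (t - V) by ring]
            have := Real.exp_pos ((T + r - t) / B)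
            have h5 : 0 ≤ c * Real.exp ((T + r - t) / B) := mul_nonneg (by linarith) this.le
            linarith
          have h2 : 1 + |t| ≤ (1 + V) * (1 + (t - V)) := by
            have h3 : |t| ≤ V + (t - V) := by
              rw [abs_le]; constructor <;> linarith
            nlinarith
          have h4 := key (t - V) (by linarith)
          have h5 := om_pos c (T + r) (V - r) B t
          calc g t * om c (T + r) (V - r) B t ≤ (K * ((1 + V) * (1 + (t - V)))) *
                Real.exp (-(c * Real.exp ((r + (t - V)) / B))) := by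
                refine mul_le_mul ((hg t).trans (mul_le_mul_of_nonneg_left h2 hK)) h1 h5.le ?_
                exact mul_nonneg hK (mul_nonneg (by linarith) (by linarith))
            _ = K * (1 + V) * ((1 + (t - V)) * Real.exp (-(c * Real.exp ((r + (t - V)) / B)))) := by ring
            _ ≤ K * (1 + V) * (Real.exp (-(E / 2)) * Real.exp (-(t - V))) := by
                gcongr
            _ = _ := by
                rw [show -(t - V) = V + -1 * t by ring, Real.exp_add]; ring
      _ = ENNReal.ofReal (∫ t in Ioi V, K * (1 + V) * Real.exp (-(E / 2)) * Real.exp V * Real.exp (-1 * t)) := by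
          rw [ofReal_integral_eq_lintegral_ofReal (i2.const_mul _)
            (Filter.Eventually.of_forall fun t => by
              simp only [Pi.zero_apply]
              positivity)]
      _ = _ := by
          rw [integral_const_mul, i1]
          congr 1
          rw [neg_div_neg_eq, div_one, mul_assoc, ← Real.exp_add]
          simp
  have e3 : ∫⁻ t in Ioc T V, ENNReal.ofReal (g t * om c (T + r) (V - r) B t) ≤
      ENNReal.ofReal (∫ t in T..V, g t) := by
    rw [intervalIntegral.integral_of_le hTV, ofReal_integral_eq_lintegral_ofReal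
      ((hgc.intervalIntegrable T V).1) (Filter.Eventually.of_forall fun t => hg0 t)]
    refine lintegral_mono fun t => ENNReal.ofReal_le_ofReal ?_
    exact mul_le_of_le_one_right (hg0 t) (om_le_one (by linarith) _ _ _ _)
  have hu : (univ : Set ℝ) = (Iic T ∪ Ioc T V) ∪ Ioi V := by
    rw [Iic_union_Ioc_eq_Iic hTV, Iic_union_Ioi]
  rw [← setLIntegral_univ, hu]
  refine (lintegral_union_le _ _ _).trans ?_
  refine (add_le_add_left (lintegral_union_le _ _ _) _).trans ?_
  refine (add_le_add (add_le_add e1 e3) e2).trans (le_of_eq ?_)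
  have hI : 0 ≤ ∫ t in T..V, g t := intervalIntegral.integral_nonneg hTV fun t _ => hg0 t
  have hX : 0 ≤ K * (1 + V) * Real.exp (-(E / 2)) := by positivity
  rw [← ENNReal.ofReal_add hX hI, ← ENNReal.ofReal_add (by positivity) hX]
  congr 1
  ring

/-- upper bound for the integral of a continuous function against the weight of the outer window -/
lemma win2 {g : ℝ → ℝ} {B T V r K x : ℝ} (hB : 0 < B) (hT : |T - 2 * r| ≤ V + 2 * r) (hTV : T - 2 * r ≤ V + 2 * r)
    (hE : 4 * B ≤ Real.exp (r / B)) (hx : 1 / 2 - B ≤ x) (hxB : x ≤ 1 / 2 + B)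
    (hK : 0 ≤ K) (hg0 : ∀ t, 0 ≤ g t) (hg : ∀ t, g t ≤ K * (1 + |t|)) (hgc : Continuous g)
    (ht : 2 * K * (1 + (V + 2 * r)) * Real.exp (-(Real.exp (r / B) / 2)) ≤ 1) :
    ∫⁻ t : ℝ, ENNReal.ofReal (g t * om (Real.cos ((x - 1 / 2) / B)) (T - r) (V + r) B t) ≤
      ENNReal.ofReal ((∫ t in (T - 2 * r)..(V + 2 * r), g t) + 1) := by
  have h := om_tail2 (cos_c2 hB hx hxB) hB hT hTV hE hK hg0 hg hgc
  rw [show T - 2 * r + r = T - r by ring, show V + 2 * r - r = V + r by ring] at h
  refine h.trans (ENNReal.ofReal_le_ofReal ?_)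
  linarith

lemma Ph_bdd2 {Q : ℂ → ℂ} {C1 : ℝ} (hC1 : 0 ≤ C1) (hQ1 : ∀ z : ℂ, 0 ≤ z.re → ‖Q z‖ ≤ C1) (a b : ℝ) {B : ℝ}
    (hB : 1 ≤ B) : ∃ C : ℝ, ∀ z : ℂ, 3 / 8 ≤ z.re → z.re ≤ 1 / 2 + B → ‖Ph Q a b B z‖ ≤ C := by
  refine ⟨3 * (12 + C1) * (2 + B) ^ 2 * (Real.exp ((|a| + |b|) / (2 * B)) * (2 * (2 * B) ^ 2 * Real.exp (1 / (2 * B)))),
    fun z h1 h2 => ?_⟩
  have hB0 : 0 < B := by linarith
  have hzn : 3 / 8 ≤ ‖z‖ := h1.trans (Complex.re_le_norm z)
  have hw : ‖wt a b B z‖ = om (Real.cos ((z.re - 1 / 2) / B)) a b B z.im := by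
    rw [← wt_norm, Complex.re_add_im]
  have hc := cos_c2 (x := z.re) hB0 (by linarith) h2
  have b0 := om_bdd hc hB0 a b z.im
  have b1 : ‖(Zt z - (z - 1) * Q z) / z‖ ≤ 3 * (12 + C1) * (‖z‖ + 1) ^ 2 := by
    rw [norm_div, div_le_iff₀ (by linarith)]
    have a1 := Zt_norm_le' h1
    have a2 : ‖(z - 1) * Q z‖ ≤ (‖z‖ + 1) * C1 := by
      rw [norm_mul]
      have := norm_sub_le z 1
      rw [norm_one] at this
      exact mul_le_mul this (hQ1 z (by linarith)) (norm_nonneg _) (by positivity)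
    have a3 := norm_sub_le (Zt z) ((z - 1) * Q z)
    have a4 : (‖z‖ + 1) * C1 ≤ (‖z‖ + 1) ^ 2 * C1 := by
      have : ‖z‖ + 1 ≤ (‖z‖ + 1) ^ 2 := by nlinarith [norm_nonneg z]
      exact mul_le_mul_of_nonneg_right this hC1
    have a5 : (12 + C1) * (‖z‖ + 1) ^ 2 ≤ 3 * (12 + C1) * (‖z‖ + 1) ^ 2 * ‖z‖ := by
      have : 0 ≤ (12 + C1) * (‖z‖ + 1) ^ 2 := by positivity
      nlinarith
    nlinarith
  have b2 : ‖z‖ + 1 ≤ (2 + B) * (1 + |z.im|) := by
    have h3 := Complex.norm_le_abs_re_add_abs_im z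
    rw [abs_of_nonneg (by linarith : 0 ≤ z.re)] at h3
    nlinarith [abs_nonneg z.im, mul_nonneg hB0.le (abs_nonneg z.im)]
  have b3 : (‖z‖ + 1) ^ 2 ≤ (2 + B) ^ 2 * (1 + |z.im|) ^ 2 := by
    rw [← mul_pow]
    exact pow_le_pow_left₀ (by positivity) b2 2
  unfold Ph
  rw [norm_mul, hw]
  have hom := om_pos (Real.cos ((z.re - 1 / 2) / B)) a b B z.im
  calc ‖(Zt z - (z - 1) * Q z) / z‖ * om (Real.cos ((z.re - 1 / 2) / B)) a b B z.im ≤
      (3 * (12 + C1) * ((2 + B) ^ 2 * (1 + |z.im|) ^ 2)) * om (Real.cos ((z.re - 1 / 2) / B)) a b B z.im := by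
        refine mul_le_mul_of_nonneg_right (b1.trans ?_) hom.le
        gcongr
    _ = 3 * (12 + C1) * (2 + B) ^ 2 * ((1 + |z.im|) ^ 2 * om (Real.cos ((z.re - 1 / 2) / B)) a b B z.im) := by ring
    _ ≤ _ := by gcongr

/-- upper bound for the line integrals to the left of the critical line -/
lemma LM_left {Q : ℂ → ℂ} {a b B x : ℝ} (hx0 : 0 < x) (hx : x ≤ 1 / 2) :
    LM (Ph Q a b B) x ≤ ∫⁻ t : ℝ, ENNReal.ofReal ((1 - x) / x * dn Q x t * om (Real.cos ((x - 1 / 2) / B)) a b B t) := by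
  unfold LM
  refine lintegral_mono fun t => ?_
  have hre : ((x : ℂ) + t * I).re = x := by simp
  rw [← ofReal_norm, Ph_eq a b B (by rw [hre]; linarith) (by
    intro h
    have := congrArg Complex.re h
    rw [hre] at this
    have h3 : x = 1 := by simpa using this
    linarith), wt_norm]
  refine ENNReal.ofReal_le_ofReal ?_
  have h1 := norm_ratio_base (x := t) hx0 hx
  have h2 := om_pos (Real.cos ((x - 1 / 2) / B)) a b B t
  unfold dn
  refine mul_le_mul_of_nonneg_right ?_ h2.le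
  rw [mul_comm]
  exact mul_le_mul_of_nonneg_right h1 (norm_nonneg _)

/-- the triangle inequality on a line to the left -/
lemma LM_tri_left {Q : ℂ → ℂ} (hQ : Differentiable ℂ Q) {a b B x : ℝ} (hx0 : 0 < x) (hx : x ≤ 1 / 2) :
    LM (Ph Q a b B) x ≤ LM (Ph ZZf a b B) x + ENNReal.ofReal ((1 - x) / x) *
      ∫⁻ t : ℝ, ENNReal.ofReal (‖Q ((x : ℂ) + t * I)‖ * om (Real.cos ((x - 1 / 2) / B)) a b B t) := by
  have hc : Continuous fun t : ℝ => (x : ℂ) + t * I := by fun_prop
  have hm : Measurable fun t : ℝ => ENNReal.ofReal (‖Q ((x : ℂ) + t * I)‖ * om (Real.cos ((x - 1 / 2) / B)) a b B t) :=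
    (((hQ.continuous.comp hc).norm).mul (om_cont _ _ _ _)).measurable.ennreal_ofReal
  have hρ : 0 ≤ (1 - x) / x := div_nonneg (by linarith) hx0.le
  rw [← lintegral_const_mul _ hm]
  unfold LM
  rw [← lintegral_add_right _ (hm.const_mul _)]
  refine lintegral_mono fun t => ?_
  rw [← ofReal_norm, ← ofReal_norm, ← ENNReal.ofReal_mul hρ, ← ENNReal.ofReal_add (norm_nonneg _)
    (mul_nonneg hρ (mul_nonneg (norm_nonneg _) (om_pos _ _ _ _ _).le))]
  refine ENNReal.ofReal_le_ofReal ?_
  set s : ℂ := (x : ℂ) + t * I with hs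
  have e1 : Ph Q a b B s = Ph ZZf a b B s - (s - 1) / s * Q s * wt a b B s := by
    unfold Ph ZZf
    ring
  rw [e1]
  refine (norm_sub_le _ _).trans (add_le_add_right ?_ _)
  rw [norm_mul, norm_mul, hs, wt_norm, ← hs, mul_assoc]
  exact mul_le_mul_of_nonneg_right (norm_ratio_base hx0 hx) (mul_nonneg (norm_nonneg _) (om_pos _ _ _ _ _).le)

/-- the functional equation for the line integrals -/
lemma LM_fe {a b B Δ X err : ℝ} (hB : 1 ≤ B) (h0 : 0 ≤ Δ) (h1 : Δ ≤ 1 / 16) (hX : 1 ≤ X) {g : ℝ → ℝ}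
    (hg0 : ∀ t, 0 ≤ g t) (hgc : Continuous g) (hg : ∀ t, X < |t| → 12 * (1 + |t|) ≤ g t)
    (herr : ∫⁻ t : ℝ, ENNReal.ofReal ((X ^ Δ * 2000 + g t) * om (Real.cos (Δ / B)) a b B t) ≤ ENNReal.ofReal err) :
    LM (Ph ZZf a b B) (1 / 2 - Δ) ≤
      ENNReal.ofReal ((1 / 2 + Δ) / (1 / 2 - Δ) * X ^ Δ / (1 - 8 * Δ)) * LM (Ph ZZf a b B) (1 / 2 + Δ) +
        ENNReal.ofReal ((1 / 2 + Δ) / (1 / 2 - Δ)) * ENNReal.ofReal err := by
  have hX0 : 0 < X := by linarith
  have hρ0 : 0 ≤ (1 / 2 + Δ) / (1 / 2 - Δ) := div_nonneg (by linarith) (by linarith)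
  have h8 : 0 < 1 - 8 * Δ := by linarith
  have hXp : 0 < X ^ Δ := Real.rpow_pos_of_pos hX0 _
  have hpt : ∀ t : ℝ, zn (1 / 2 - Δ) t ≤ X ^ Δ * (zn (1 / 2 + Δ) t + 2000) + g t := by
    intro t
    rcases le_or_gt |t| X with h | h
    · have h2 := fe_p (τ := t) one_pos le_rfl h0 (by linarith) hX h
      simp only [Real.rpow_one, one_mul] at h2
      linarith [hg0 t]
    · have h2 := zn_le' (σ := 1 / 2 - Δ) (t := t) (by linarith) (by linarith)
      have h3 := hg t h
      have h4 : 0 ≤ X ^ Δ * (zn (1 / 2 + Δ) t + 2000) := mul_nonneg hXp.le (by linarith [zn_nonneg (1 / 2 + Δ) t])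
      linarith
  have hcos : (1 / 2 - Δ - 1 / 2) / B = -(Δ / B) := by ring
  have hcF : Continuous fun t : ℝ => Ph ZZf a b B (((1 / 2 + Δ : ℝ) : ℂ) + t * I) := by
    rw [continuous_iff_continuousAt]
    intro t
    have h2 : ContinuousAt (Ph ZZf a b B) (((1 / 2 + Δ : ℝ) : ℂ) + t * I) :=
      (Ph_diff (differentiable_const _) a b B (by simp; linarith)).continuousAt
    exact ContinuousAt.comp (f := fun t : ℝ => ((1 / 2 + Δ : ℝ) : ℂ) + t * I) h2 (by fun_prop)
  refine (LM_left (by linarith) (by linarith)).trans ?_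
  rw [hcos, Real.cos_neg]
  refine le_trans ?_ (add_le_add le_rfl (mul_le_mul_right herr _))
  have hm2 : Measurable fun t : ℝ => ENNReal.ofReal ((X ^ Δ * 2000 + g t) * om (Real.cos (Δ / B)) a b B t) :=
    ((continuous_const.add hgc).mul (om_cont _ _ _ _)).measurable.ennreal_ofReal
  unfold LM
  rw [← lintegral_const_mul _ hcF.measurable.enorm, ← lintegral_const_mul _ hm2,
    ← lintegral_add_right _ (hm2.const_mul _)]
  refine lintegral_mono fun t => ?_
  have hom := om_pos (Real.cos (Δ / B)) a b B t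
  have hX2 : 0 ≤ X ^ Δ * 2000 + g t := add_nonneg (by positivity) (hg0 t)
  rw [← ofReal_norm, ← ENNReal.ofReal_mul (div_nonneg (mul_nonneg hρ0 hXp.le) h8.le), ← ENNReal.ofReal_mul hρ0,
    ← ENNReal.ofReal_add (mul_nonneg (div_nonneg (mul_nonneg hρ0 hXp.le) h8.le) (norm_nonneg _))
    (mul_nonneg hρ0 (mul_nonneg hX2 hom.le))]
  refine ENNReal.ofReal_le_ofReal ?_
  rw [dn_ZZf]
  have a2 := Ph_ge (Q := ZZf) (a := a) (b := b) (B := B) (t := t) h0 (by linarith)
  rw [dn_ZZf] at a2
  set P := ‖Ph ZZf a b B (((1 / 2 + Δ : ℝ) : ℂ) + t * I)‖ with hP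
  set O := om (Real.cos (Δ / B)) a b B t with hO
  have e0 : (1 - (1 / 2 - Δ)) / (1 / 2 - Δ) = (1 / 2 + Δ) / (1 / 2 - Δ) := by ring
  rw [e0]
  set R := (1 / 2 + Δ) / (1 / 2 - Δ) with hR
  have h5 : zn (1 / 2 + Δ) t * O ≤ P / (1 - 8 * Δ) := by
    rw [le_div_iff₀ h8]
    linarith
  calc R * zn (1 / 2 - Δ) t * O ≤ R * (X ^ Δ * (zn (1 / 2 + Δ) t + 2000) + g t) * O := by
        refine mul_le_mul_of_nonneg_right (mul_le_mul_of_nonneg_left (hpt t) hρ0) hom.le
    _ = R * X ^ Δ * (zn (1 / 2 + Δ) t * O) + R * ((X ^ Δ * 2000 + g t) * O) := by ring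
    _ ≤ R * X ^ Δ * (P / (1 - 8 * Δ)) + R * ((X ^ Δ * 2000 + g t) * O) := by
        have : 0 ≤ R * X ^ Δ := mul_nonneg hρ0 hXp.le
        gcongr
    _ = _ := by ring

end Pool.Agent.K7.H50.MU
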