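import Pool.Agent.K7.H50.MU.A1

set_option autoImplicit false

/-! Decay of the weighted line integrals, from a line to the left of the critical line. -/

namespace Pool.Agent.K7.H50.MU

open MeasureTheory Complex Set Filter Topology Pool.Agent.H306R2 Pool.Agent.W184 Pool.Agent.R313.FM
open Pool.Agent.K7.H50.MZ
open scoped ENNReal

theorem decay2 {δ δ1 W C2 ν ρ : ℝ} (hδ : 0 < δ) (hδ1 : 0 ≤ δ1) (hW : 2 ≤ W) (hC2 : 1 ≤ C2) {Nf : ℝ → ℝ}
    (hN1 : ∀ᶠ U : ℝ in atTop, 1 ≤ Nf U)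
    (hN : Tendsto (fun U : ℝ => Real.log (Nf U) / Real.log U) atTop (𝓝 ν))
    (hρ : Real.exp (-(ν * (δ + δ1) * (1 - 2 / W))) < ρ) :
    ∀ᶠ Y : ℝ in atTop, ∀ (Q : ℂ → ℂ) (C1 a b A H : ℝ), Differentiable ℂ Q → 0 ≤ C1 →
      (∀ z : ℂ, 0 ≤ z.re → ‖Q z‖ ≤ C1) →
      (∀ z : ℂ, 2 ≤ z.re → ‖riemannZeta z - Q z‖ * (Nf Y) ^ z.re ≤ C2 * (Nf Y) ^ 2) →
      a ≤ b → b - a ≤ 2 * H → Y ≤ H → H ≤ A → LM (Ph Q a b (2 * W)) (1 / 2 - δ / Real.log Y) ≤ ENNReal.ofReal A →
      LM (Ph Q a b (2 * W)) (1 / 2 + δ1 / Real.log Y) ≤ ENNReal.ofReal (ρ * A) := by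
  have hlim : Tendsto (fun U : ℝ => Real.exp ((δ + δ1) * Real.log (3 * C2) / Real.log U -
      Real.log (Nf U) / Real.log U * ((δ + δ1) * (1 - 2 / W)))) atTop
      (𝓝 (Real.exp (-(ν * (δ + δ1) * (1 - 2 / W))))) := by
    refine (Real.continuous_exp.tendsto _).comp ?_
    have h1 : Tendsto (fun U : ℝ => (δ + δ1) * Real.log (3 * C2) / Real.log U) atTop (𝓝 0) :=
      tendsto_const_nhds.div_atTop Real.tendsto_log_atTop
    have h2 := h1.sub (hN.mul_const ((δ + δ1) * (1 - 2 / W)))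
    rw [zero_sub] at h2
    refine h2.congr' ?_ |>.trans ?_
    · exact Eventually.of_forall fun _ => rfl
    · rw [mul_assoc]
  filter_upwards [hlim.eventually_lt_const hρ, hN1, eventually_gt_atTop 1, eventually_ge_atTop (8 * W),
    Real.tendsto_log_atTop.eventually_ge_atTop ((δ + δ1) / W),
    Real.tendsto_log_atTop.eventually_ge_atTop (8 * δ)] with Y h1 h2 h3 h4 h5 h5' Q C1 a b A H hQ hC1 hQ1 hQ2 hab hbH
      hYH hHA hLM
  have hW0 : 0 < W := by linarith
  have hY0 : 0 < Y := by linarith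
  have hH0 : 0 < H := by linarith
  have hA0 : 0 < A := by linarith
  set L := Real.log Y with hL
  have hL0 : 0 < L := Real.log_pos h3
  set N := Nf Y with hNdef
  have hN0 : 0 < N := by linarith
  have hlN : 0 ≤ Real.log N := Real.log_nonneg h2
  set x := (δ + δ1) / L with hx
  have hx0 : 0 < x := by positivity
  set y := δ / L with hy
  have hy0 : 0 < y := by positivity
  have hy8 : y ≤ 1 / 8 := by
    rw [hy, div_le_iff₀ hL0]; linarith
  have hxW : x ≤ W := by
    rw [hx, div_le_iff₀ hL0]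
    rw [div_le_iff₀ hW0] at h5
    linarith
  obtain ⟨n, hn1, hn2⟩ := exists_two_pow hx0 hxW
  set W' := 2 ^ n * x with hW'
  have hW'0 : 0 < W' := by linarith
  have hB0 : (0:ℝ) < 2 * W := by linarith
  obtain ⟨C, hC⟩ := Ph_bdd2 hC1 hQ1 a b (B := 2 * W) (by linarith)
  -- the far line
  have hfar := LM_far (Q := Q) (a := a) (b := b) (B := 2 * W) (x := 1 / 2 - y + W') (N := N) (C2 := C2)
    (by linarith) (by linarith) hB0 hab h2 (by linarith) hQ2
  set a' : ℝ := 3 * C2 * N ^ (2 - W') * H with ha'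
  have ha'0 : 0 < a' := by positivity
  have hfar' : LM (Ph Q a b (2 * W)) (1 / 2 - y + W') ≤ ENNReal.ofReal a' := by
    refine hfar.trans (ENNReal.ofReal_le_ofReal ?_)
    rw [ha']
    have h6 : b - a + 4 * (2 * W) ≤ 3 * H := by linarith
    have h6' : N ^ (2 - (1 / 2 - y + W')) ≤ N ^ (2 - W') := Real.rpow_le_rpow_of_exponent_le h2 (by linarith)
    have h7 : 0 ≤ C2 * N ^ (2 - (1 / 2 - y + W')) := by positivity
    calc C2 * N ^ (2 - (1 / 2 - y + W')) * (b - a + 4 * (2 * W)) ≤ C2 * N ^ (2 - W') * (3 * H) := by gcongr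
      _ = _ := by ring
  have hdy := LM_dyadic (F := Ph Q a b (2 * W)) (x := 1 / 2 - y) (W := W') (C := C) (A := A) (a := a') hW'0 hA0 ha'0
    (fun z hz1 _ => Ph_diff hQ a b _ (by linarith))
    (fun z hz1 _ => (Ph_diff hQ a b _ (by linarith)).continuousAt)
    (fun z hz1 hz2 => hC z (by linarith) (by linarith)) hLM hfar' n
  have e1 : 1 / 2 - y + W' / 2 ^ n = 1 / 2 + δ1 / L := by
    have : W' / 2 ^ n = x := by
      rw [hW']; field_simp
    rw [this, hx, hy]
    ring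
  rw [e1] at hdy
  refine hdy.trans (ENNReal.ofReal_le_ofReal ?_)
  set lam : ℝ := (1 / 2 : ℝ) ^ n with hlam
  have hlam0 : 0 < lam := by positivity
  have elam : lam = x / W' := by
    rw [hlam, hW', one_div, inv_pow]
    field_simp
  have hpow : 0 < 3 * C2 * N ^ (2 - W') := by positivity
  have h8 : a' ^ lam ≤ (3 * C2 * N ^ (2 - W')) ^ lam * A ^ lam := by
    rw [← Real.mul_rpow hpow.le hA0.le]
    refine Real.rpow_le_rpow ha'0.le ?_ hlam0.le
    rw [ha']
    exact mul_le_mul_of_nonneg_left hHA hpow.le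
  have h9 : (3 * C2 * N ^ (2 - W')) ^ lam ≤ ρ := by
    refine le_trans ?_ h1.le
    rw [Real.rpow_def_of_pos hpow, Real.log_mul (by positivity) (by positivity), Real.log_rpow hN0]
    refine Real.exp_le_exp.mpr ?_
    have hC2l : 0 ≤ Real.log (3 * C2) := Real.log_nonneg (by linarith)
    have e2 : (Real.log (3 * C2) + (2 - W') * Real.log N) * lam =
        Real.log (3 * C2) * lam - Real.log N / L * ((δ + δ1) * (1 - 2 / W')) := by
      rw [elam, hx]
      field_simp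
      ring
    rw [e2]
    have h10 : Real.log (3 * C2) * lam ≤ (δ + δ1) * Real.log (3 * C2) / L := by
      have : lam ≤ (δ + δ1) / L := by
        rw [elam, ← hx]
        exact div_le_self hx0.le (by linarith)
      calc Real.log (3 * C2) * lam ≤ Real.log (3 * C2) * ((δ + δ1) / L) := by gcongr
        _ = _ := by ring
    have h11 : 2 / W' ≤ 2 / W := by gcongr
    have h12 : Real.log N / L * ((δ + δ1) * (1 - 2 / W)) ≤ Real.log N / L * ((δ + δ1) * (1 - 2 / W')) := by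
      have : 0 ≤ Real.log N / L := by positivity
      gcongr
    linarith
  have h13 : 0 ≤ A ^ (1 - lam) := by positivity
  calc A ^ (1 - lam) * a' ^ lam ≤ A ^ (1 - lam) * ((3 * C2 * N ^ (2 - W')) ^ lam * A ^ lam) := by gcongr
    _ = (3 * C2 * N ^ (2 - W')) ^ lam * (A ^ (1 - lam) * A ^ lam) := by ring
    _ = (3 * C2 * N ^ (2 - W')) ^ lam * A := by
        rw [← Real.rpow_add hA0, sub_add_cancel, Real.rpow_one]
    _ ≤ ρ * A := by gcongr

lemma exists_W2 (s : ℝ) {η : ℝ} (hη : 0 < η) : ∀ᶠ W : ℝ in atTop,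
    Real.exp (-(1 * s * (1 - 2 / W))) < Real.exp (-s) + η := by
  have h1 : Tendsto (fun W : ℝ => 2 / W) atTop (𝓝 0) :=
    tendsto_const_nhds.div_atTop tendsto_id
  have h2 : Tendsto (fun W : ℝ => Real.exp (-(1 * s * (1 - 2 / W)))) atTop
      (𝓝 (Real.exp (-(1 * s * (1 - 0))))) :=
    (Real.continuous_exp.tendsto _).comp ((tendsto_const_nhds.mul (tendsto_const_nhds.sub h1)).neg)
  refine h2.eventually_lt_const ?_
  rw [sub_zero, mul_one, one_mul]
  linarith

/-- mean squares over intervals of length at most `(1 + η) H`, `H ≥ Y` -/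
lemma S_up2 (δ : ℝ) {η : ℝ} (hη : 0 < η) : ∀ᶠ Y : ℝ in atTop, ∀ H A B : ℝ, Y ≤ H → B - A ≤ (1 + η) * H → A ≤ B →
    ∫ t in A..B, pn 2 Y (1 / 2 + δ / Real.log Y) t ≤ ((1 + η) * (gg δ + η) + η) * mm Y H := by
  have hg0 : 0 ≤ gg δ := by
    unfold gg
    have h1 := aF_pos kh_pos
    have h2 : 0 ≤ gI kh δ := by
      have := coef_ev 2 δ
      have h3 : 0 ≤ aF kh * gI kh δ := by
        refine ge_of_tendsto this ?_
        filter_upwards [big_log] with T hT
        have : 0 < Real.log T := by linarith [hT.2]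
        refine div_nonneg (Finset.sum_nonneg fun n _ => by positivity) (by positivity)
      exact nonneg_of_mul_nonneg_right h3 h1
    positivity
  have e1 := (coef_ev 2 δ).eventually_lt_const (show gg δ < gg δ + η by linarith)
  filter_upwards [e1, NN_mul 1, H_small (12 * Real.exp (2 * |δ|)) hη, pn_mv (m := 2) δ, big_log]
    with Y a1 a2 a3 a5 a6 H A B hYH hBA hAB
  have hY0 : 0 < Y := by linarith [a6.1]
  have hH0 : 0 < H := by linarith
  have hL : 0 < Real.log Y := by linarith [a6.2]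
  have hLp : 0 < Real.log Y ^ (kh ^ 2) := by positivity
  rw [div_lt_iff₀ hLp] at a1
  have hm' := abs_le.mp (a5 A B)
  have h3 := a3 H hH0.le
  have h4 : 6 * Real.exp (2 * |δ|) * ((NN 2 Y : ℝ) * (1 + Real.log (NN 2 Y))) ≤ η * mm Y H := by
    refine le_trans ?_ h3
    have h5 : 2 * (Y / Real.log Y ^ 1) ≤ 2 * H := by
      rw [pow_one]
      have := div_le_self hY0.le a6.2.le
      linarith
    calc 6 * Real.exp (2 * |δ|) * ((NN 2 Y : ℝ) * (1 + Real.log (NN 2 Y))) ≤ 6 * Real.exp (2 * |δ|) * (2 * H) :=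
          mul_le_mul_of_nonneg_left (a2.trans h5) (by positivity)
      _ = _ := by ring
  set Sg := ∑ n ∈ Finset.Icc 1 (NN 2 Y), dv kh n ^ 2 * (n : ℝ) ^ (-(2 * (1 / 2 + δ / Real.log Y))) with hSg
  have hSg0 : 0 ≤ Sg := Finset.sum_nonneg fun n _ => by positivity
  have b1 : (B - A) * Sg ≤ ((1 + η) * H) * Sg := mul_le_mul_of_nonneg_right hBA hSg0
  have b2 : ((1 + η) * H) * Sg ≤ ((1 + η) * H) * ((gg δ + η) * Real.log Y ^ (kh ^ 2)) :=
    mul_le_mul_of_nonneg_left a1.le (by positivity)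
  have b3 := hm'.2
  have b4 : ((1 + η) * (gg δ + η) + η) * mm Y H =
      ((1 + η) * H) * ((gg δ + η) * Real.log Y ^ (kh ^ 2)) + η * mm Y H := by
    unfold mm
    ring
  rw [b4]
  refine (sub_le_iff_le_add.mp b3).trans ?_
  rw [add_comm]
  exact add_le_add (b1.trans b2) h4

end Pool.Agent.K7.H50.MU
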