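import Pool.Agent.K7.H50.MU.A2

set_option autoImplicit false

/-! The upper bound for the first moment in short windows: the main inequality. -/

namespace Pool.Agent.K7.H50.MU

open MeasureTheory Complex Set Filter Topology Pool.Agent.H306R2 Pool.Agent.W184 Pool.Agent.R313.FM
open Pool.Agent.K7.H50.MZ
open scoped ENNReal

/-- the height factor -/
lemma Xpow_lim {κ : ℝ} (δ : ℝ) : Tendsto (fun Y : ℝ => (2 * Y ^ κ) ^ (δ / Real.log Y)) atTop
    (𝓝 (Real.exp (κ * δ))) := by
  have h1 : Tendsto (fun Y : ℝ => Real.exp (κ * δ + δ * Real.log 2 / Real.log Y)) atTop (𝓝 (Real.exp (κ * δ))) := by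
    refine (Real.continuous_exp.tendsto _).comp ?_
    have h2 : Tendsto (fun Y : ℝ => δ * Real.log 2 / Real.log Y) atTop (𝓝 0) :=
      tendsto_const_nhds.div_atTop Real.tendsto_log_atTop
    simpa using h2.const_add (κ * δ)
  refine h1.congr' ?_
  filter_upwards [eventually_gt_atTop 1] with Y hY
  have hY0 : 0 < Y := by linarith
  have hL : 0 < Real.log Y := Real.log_pos hY
  have h3 : 0 < Y ^ κ := Real.rpow_pos_of_pos hY0 _
  rw [Real.rpow_def_of_pos (by positivity), Real.log_mul (by norm_num) h3.ne', Real.log_rpow hY0]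
  congr 1
  field_simp
  ring

lemma fe_lim {κ : ℝ} (δ : ℝ) : Tendsto (fun Y : ℝ => (1 / 2 + δ / Real.log Y) / (1 / 2 - δ / Real.log Y) *
    (2 * Y ^ κ) ^ (δ / Real.log Y) / (1 - 8 * (δ / Real.log Y))) atTop (𝓝 (Real.exp (κ * δ))) := by
  have h1 := delta_tendsto δ
  have h2 := Xpow_lim (κ := κ) δ
  have h3 : Tendsto (fun Y : ℝ => (1 / 2 + δ / Real.log Y) / (1 / 2 - δ / Real.log Y)) atTop
      (𝓝 ((1 / 2 + 0) / (1 / 2 - 0))) :=
    (h1.const_add _).div (h1.const_sub _) (by norm_num)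
  have h4 : Tendsto (fun Y : ℝ => 1 - 8 * (δ / Real.log Y)) atTop (𝓝 (1 - 8 * 0)) := (h1.const_mul 8).const_sub 1
  have h5 := (h3.mul h2).div h4 (by norm_num)
  have e : (1 / 2 + 0) / (1 / 2 - 0) * Real.exp (κ * δ) / (1 - 8 * 0) = Real.exp (κ * δ) := by norm_num
  rwa [e] at h5

/-- the cut-off used outside the range of heights -/
noncomputable def cg (V t : ℝ) : ℝ := 12 * (1 + |t|) * min 1 (max 0 (|t| - V))

lemma cg_nonneg (V t : ℝ) : 0 ≤ cg V t := by
  unfold cg
  have : 0 ≤ min 1 (max 0 (|t| - V)) := le_min zero_le_one (le_max_left _ _)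
  positivity

lemma cg_cont (V : ℝ) : Continuous (cg V) := by
  unfold cg
  fun_prop

lemma cg_le (V t : ℝ) : cg V t ≤ 12 * (1 + |t|) := by
  unfold cg
  refine mul_le_of_le_one_right (by positivity) (min_le_left _ _)

lemma cg_zero {V t : ℝ} (h : |t| ≤ V) : cg V t = 0 := by
  unfold cg
  rw [max_eq_left (by linarith), min_eq_right zero_le_one, mul_zero]

lemma cg_big {V t : ℝ} (h : V + 1 ≤ |t|) : 12 * (1 + |t|) ≤ cg V t := by
  unfold cg
  rw [min_eq_left (le_max_of_le_right (by linarith)), mul_one]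

/-- the functional equation for the line integrals, with explicit error -/
lemma fe_win {B U H r V X Δ : ℝ} (hB : 1 ≤ B) (hU : 0 ≤ U) (hH : 0 ≤ H) (hr : 0 ≤ r)
    (hE : 4 * B ≤ Real.exp (r / B)) (h0 : 0 ≤ Δ) (h1 : Δ ≤ 1 / 16) (hV : V = U + H + 2 * r) (hX : V + 1 ≤ X)
    (ht : 2 * 12 * (1 + V) * Real.exp (-(Real.exp (r / B) / 2)) ≤ 1) :
    LM (Ph ZZf (U - r) (U + H + r) B) (1 / 2 - Δ) ≤
      ENNReal.ofReal ((1 / 2 + Δ) / (1 / 2 - Δ) * X ^ Δ / (1 - 8 * Δ)) * LM (Ph ZZf (U - r) (U + H + r) B) (1 / 2 + Δ) +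
        ENNReal.ofReal ((1 / 2 + Δ) / (1 / 2 - Δ)) *
          ENNReal.ofReal (X ^ Δ * 2000 * (H + 2 * r + 4 * B) + 1) := by
  have hB0 : 0 < B := by linarith
  have hV0 : 0 ≤ V := by rw [hV]; positivity
  have hX0 : 0 < X := by linarith
  refine LM_fe hB h0 h1 (by linarith) (g := cg V) (cg_nonneg V) (cg_cont V) (fun t h => cg_big (by linarith)) ?_
  have hXp : 0 ≤ X ^ Δ * 2000 := by positivity
  have hΔB : Δ / B = (1 / 2 + Δ - 1 / 2) / B := by ring
  have hcos : 1 / 2 ≤ Real.cos (Δ / B) := by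
    rw [hΔB]
    exact cos_c2 hB0 (by linarith) (by linarith)
  have hm := om_mass hcos hB0 (a := U - r) (b := U + H + r) (by linarith)
  have hg := win2 (g := cg V) (B := B) (T := U) (V := U + H) (r := r) (K := 12) (x := 1 / 2 + Δ) hB0
    (by rw [abs_le]; constructor <;> linarith) (by linarith) hE (by linarith) (by linarith) (by norm_num)
    (cg_nonneg V) (cg_le V) (cg_cont V) (by rw [← hV]; exact ht)
  rw [← hΔB] at hg
  have hz : ∫ t in (U - 2 * r)..(U + H + 2 * r), cg V t = 0 := by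
    rw [intervalIntegral.integral_congr (g := fun _ => 0)]
    · simp
    · intro t ht
      rw [uIcc_of_le (by linarith)] at ht
      refine cg_zero ?_
      rw [abs_le, hV]
      constructor <;> linarith [ht.1, ht.2]
  rw [hz, zero_add] at hg
  have hmeas : Measurable fun t : ℝ => ENNReal.ofReal (cg V t * om (Real.cos (Δ / B)) (U - r) (U + H + r) B t) :=
    ((cg_cont V).mul (om_cont _ _ _ _)).measurable.ennreal_ofReal
  calc ∫⁻ t : ℝ, ENNReal.ofReal ((X ^ Δ * 2000 + cg V t) * om (Real.cos (Δ / B)) (U - r) (U + H + r) B t)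
      = ∫⁻ t : ℝ, (ENNReal.ofReal (X ^ Δ * 2000) * ENNReal.ofReal (om (Real.cos (Δ / B)) (U - r) (U + H + r) B t) +
        ENNReal.ofReal (cg V t * om (Real.cos (Δ / B)) (U - r) (U + H + r) B t)) := by
        refine lintegral_congr fun t => ?_
        have hom := (om_pos (Real.cos (Δ / B)) (U - r) (U + H + r) B t).le
        rw [← ENNReal.ofReal_mul hXp, ← ENNReal.ofReal_add (mul_nonneg hXp hom) (mul_nonneg (cg_nonneg V t) hom)]
        congr 1
        ring
    _ = ENNReal.ofReal (X ^ Δ * 2000) * (∫⁻ t : ℝ, ENNReal.ofReal (om (Real.cos (Δ / B)) (U - r) (U + H + r) B t)) +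
        ∫⁻ t : ℝ, ENNReal.ofReal (cg V t * om (Real.cos (Δ / B)) (U - r) (U + H + r) B t) := by
        rw [lintegral_add_right _ hmeas, lintegral_const_mul _ (om_cont _ _ _ _).measurable.ennreal_ofReal]
    _ ≤ ENNReal.ofReal (X ^ Δ * 2000) * ENNReal.ofReal (U + H + r - (U - r) + 4 * B) + ENNReal.ofReal 1 := by
        gcongr
    _ = _ := by
        rw [← ENNReal.ofReal_mul hXp, ← ENNReal.ofReal_add (mul_nonneg hXp (by linarith)) zero_le_one]
        congr 2
        ring

/-- the line integral is an upper bound for the integral over the window -/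
lemma win_lower {B U H r : ℝ} (hB : 0 < B) (hH : 0 ≤ H) (hr : 0 ≤ 1 - 2 * Real.exp (-(r / B))) :
    ENNReal.ofReal ((1 - 2 * Real.exp (-(r / B))) * ∫ t in U..(U + H), zn (1 / 2) t) ≤
      LM (Ph ZZf (U - r) (U + H + r) B) (1 / 2) := by
  have hcz : Continuous (zn (1 / 2)) := zn_cont (by norm_num)
  have hcF : Continuous fun t : ℝ => Ph ZZf (U - r) (U + H + r) B (((1 / 2 : ℝ) : ℂ) + t * I) := by
    rw [continuous_iff_continuousAt]
    intro t
    have h2 : ContinuousAt (Ph ZZf (U - r) (U + H + r) B) (((1 / 2 : ℝ) : ℂ) + t * I) :=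
      (Ph_diff (differentiable_const _) _ _ B (by simp)).continuousAt
    exact ContinuousAt.comp (f := fun t : ℝ => ((1 / 2 : ℝ) : ℂ) + t * I) h2 (by fun_prop)
  rw [intervalIntegral.integral_of_le (by linarith), ← integral_const_mul,
    ofReal_integral_eq_lintegral_ofReal (((hcz.intervalIntegrable _ _).1).const_mul _)
      (Eventually.of_forall fun t => mul_nonneg hr (zn_nonneg _ _))]
  unfold LM
  refine (setLIntegral_mono hcF.measurable.enorm fun t ht => ?_).trans (setLIntegral_le_lintegral _ _)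
  rw [← ofReal_norm]
  refine ENNReal.ofReal_le_ofReal ?_
  have a2 := Ph_ge (Q := ZZf) (a := U - r) (b := U + H + r) (B := B) (Δ := 0) (t := t) le_rfl (by norm_num)
  rw [dn_ZZf] at a2
  simp only [mul_zero, sub_zero, one_mul, add_zero, zero_div, Real.cos_zero] at a2
  have a3 := om_inner (c := 1) (a := U - r) (b := U + H + r) (r := r) (t := t) le_rfl hB
    (by linarith [ht.1]) (by linarith [ht.2])
  refine le_trans ?_ a2
  rw [mul_comm]
  exact mul_le_mul_of_nonneg_left a3 (zn_nonneg _ _)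

end Pool.Agent.K7.H50.MU
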