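import Pool.Agent.K7.H50.MU.A3

set_option autoImplicit false

/-! The upper bound for the first moment in short windows. -/

namespace Pool.Agent.K7.H50.MU

open MeasureTheory Complex Set Filter Topology Pool.Agent.H306R2 Pool.Agent.W184 Pool.Agent.R313.FM
open Pool.Agent.K7.H50.MZ
open scoped ENNReal

/-- the conditions on the length parameter `Y` that involve the radius -/
lemma radius_ev {κ W η : ℝ} (hκ : 0 < κ) (hW : 0 < W) (hη : 0 < η) : ∀ᶠ Y : ℝ in atTop,
    4 * (2 * W) ≤ 16 * Real.log (Y ^ κ) ∧ 2 / (16 * Real.log (Y ^ κ)) ≤ η ∧ 1 ≤ Real.log (Y ^ κ) ∧ 5 ≤ Y ^ κ ∧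
    4 * (2 * W * Real.log (16 * Real.log (Y ^ κ))) ≤ η * Y := by
  have h1 : Tendsto (fun Y : ℝ => Y ^ κ) atTop atTop := tendsto_rpow_atTop hκ
  have h2 : Tendsto (fun Y : ℝ => Real.log (Y ^ κ)) atTop atTop := Real.tendsto_log_atTop.comp h1
  have h3 := Real.isLittleO_log_id_atTop.bound (show (0:ℝ) < η / (8 * W * 16 * κ) by positivity)
  filter_upwards [h2.eventually_ge_atTop (4 * (2 * W) + 2 / η + 1), h1.eventually_ge_atTop 5, h3,
    eventually_gt_atTop 1] with Y a1 a2 a3 a4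
  have hY0 : 0 < Y := by linarith
  have p1 : 0 < 2 / η := by positivity
  have p2 : 0 < Real.log (Y ^ κ) := by linarith
  have hlY : 0 < Real.log Y := Real.log_pos a4
  simp only [id, Real.norm_eq_abs] at a3
  rw [abs_of_pos hlY, abs_of_pos hY0] at a3
  refine ⟨by linarith, ?_, by linarith, a2, ?_⟩
  · rw [div_le_iff₀ (by positivity)]
    have : 2 / η ≤ 16 * Real.log (Y ^ κ) := by linarith
    rw [div_le_iff₀ hη] at this
    linarith
  · have h5 : Real.log (16 * Real.log (Y ^ κ)) ≤ 16 * Real.log (Y ^ κ) := Real.log_le_self (by positivity)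
    rw [Real.log_rpow hY0] at h5 ⊢
    calc 4 * (2 * W * Real.log (16 * (κ * Real.log Y))) ≤ 4 * (2 * W * (16 * (κ * Real.log Y))) := by gcongr
      _ = 8 * W * 16 * κ * Real.log Y := by ring
      _ ≤ 8 * W * 16 * κ * (η / (8 * W * 16 * κ) * Y) := by gcongr
      _ = η * Y := by field_simp

theorem core_up {κ δ δ1 c : ℝ} (hκ : 0 < κ) (hδ : 0 < δ) (hδ1 : 0 < δ1)
    (hq : Real.exp (κ * δ) * Real.exp (-(δ + δ)) < 1)
    (hc : Real.exp (κ * δ1 / 2) * (Real.exp (-(δ + δ1)) * ((gg (-δ) + Real.exp (κ * δ) * gg δ) /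
      (1 - Real.exp (κ * δ) * Real.exp (-(δ + δ)))) + gg δ1) < c) :
    ∀ᶠ Y : ℝ in atTop, ∀ U H : ℝ, 0 ≤ U → Y ≤ H → U + H ≤ Y ^ κ →
      ∫ t in U..(U + H), zn (1 / 2) t ≤ c * mm Y H := by
  set E := Real.exp (κ * δ) with hE
  set E1 := Real.exp (κ * δ1) with hE1
  set q := Real.exp (-(δ + δ)) with hqd
  set q1 := Real.exp (-(δ + δ1)) with hq1d
  set l := Real.exp (κ * δ1 / 2) with hl
  have hE0 : 0 < E := Real.exp_pos _
  have hE10 : 0 < E1 := Real.exp_pos _
  have hq0 : 0 < q := Real.exp_pos _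
  have hq10 : 0 < q1 := Real.exp_pos _
  have hl0 : 0 < l := Real.exp_pos _
  have hlE : l⁻¹ * E1 = l := by
    rw [hl, hE1, ← Real.exp_neg, ← Real.exp_add]
    congr 1
    ring
  set p : ℝ → ℝ → ℝ := fun g η => (1 + η) * (g + η) + 2 * η with hp
  set Xf : ℝ → ℝ := fun η => ((E + η) * p (gg δ) η + (1 + η) * p (gg (-δ)) η + 2 * η) / (1 - (E + η) * (q + η))
    with hXf
  set m1 : ℝ → ℝ := fun η => (q1 + η) * Xf η + p (gg δ1) η with hm1
  set Φ : ℝ → ℝ := fun η => 1 / 2 * (l * m1 η + l⁻¹ * ((E1 + η) * m1 η + η)) / (1 - η) with hΦ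
  have hden : 1 - E * q ≠ 0 := by
    have : 0 < 1 - E * q := by linarith
    exact this.ne'
  have hΦ0 : Φ 0 < c := by
    refine lt_of_eq_of_lt ?_ hc
    simp only [hΦ, hm1, hXf, hp, add_zero, mul_zero, sub_zero, one_mul, div_one]
    have : l⁻¹ * (E1 * (q1 * ((E * gg δ + gg (-δ)) / (1 - E * q)) + gg δ1)) =
        l * (q1 * ((E * gg δ + gg (-δ)) / (1 - E * q)) + gg δ1) := by
      rw [← mul_assoc, hlE]
    rw [this, add_comm (gg (-δ))]
    ring
  have hcont : ContinuousAt Φ 0 := by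
    have c1 : ContinuousAt Xf 0 := by
      simp only [hXf, hp]
      refine ContinuousAt.div (by fun_prop) (by fun_prop) ?_
      simpa using hden
    have c2 : ContinuousAt m1 0 := by
      simp only [hm1, hp]
      fun_prop
    simp only [hΦ]
    refine ContinuousAt.div (by fun_prop) (by fun_prop) (by norm_num)
  have hcont2 : ContinuousAt (fun η : ℝ => (E + η) * (q + η)) 0 := by fun_prop
  obtain ⟨η, hη, hΦη, hη1, hη2⟩ := exists_small hcont hΦ0 (fun η => (E + η) * (q + η) < 1 ∧ η < 1 / 2)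
    (((hcont2.eventually (gt_mem_nhds (by simpa using hq))).filter_mono nhdsWithin_le_nhds).and
      ((gt_mem_nhds (by norm_num : (0:ℝ) < 1 / 2)).filter_mono nhdsWithin_le_nhds))
  obtain ⟨W, hW2, hW1', hW2'⟩ := ((eventually_ge_atTop (2:ℝ)).and ((exists_W2 (δ + δ) hη).and
    (exists_W2 (δ + δ1) hη))).exists
  have hW0 : 0 < W := by linarith
  have hB0 : 0 < 2 * W := by linarith
  set Z2 : ℝ := 1 + ∑' n : ℕ, 1 / (n : ℝ) ^ 2 with hZ2
  have hZ20 : 1 ≤ Z2 := by
    have : 0 ≤ ∑' n : ℕ, 1 / (n : ℝ) ^ 2 := tsum_nonneg fun n => by positivity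
    linarith
  have hNev : ∀ᶠ U : ℝ in atTop, (1:ℝ) ≤ (NN 2 U : ℝ) := (NN_ge 2).mono fun U h => by exact_mod_cast h.2
  have D1 := decay2 (δ := δ) (δ1 := δ) (W := W) (C2 := Z2) (ν := 1) (ρ := q + η) hδ hδ.le hW2 hZ20
    (Nf := fun U => (NN 2 U : ℝ)) hNev (logNN_tendsto 2) hW1'
  have D2 := decay2 (δ := δ) (δ1 := δ1) (W := W) (C2 := Z2) (ν := 1) (ρ := q1 + η) hδ hδ1.le hW2 hZ20
    (Nf := fun U => (NN 2 U : ℝ)) hNev (logNN_tendsto 2) hW2'
  have F1 := (fe_lim (κ := κ) δ).eventually_lt_const (show E < E + η by linarith)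
  have F2 := (fe_lim (κ := κ) δ1).eventually_lt_const (show E1 < E1 + η by linarith)
  have F3 := (Xpow_lim (κ := κ) δ).eventually_lt_const (show E < E + 1 by linarith)
  have F4 := (Xpow_lim (κ := κ) δ1).eventually_lt_const (show E1 < E1 + 1 by linarith)
  have hη16 : 0 < min (η / 16) (1 / 16) := by positivity
  filter_upwards [D1, D2, S_up2 δ hη, S_up2 (-δ) hη, S_up2 δ1 hη, F1, F2, F3, F4,
    radius_ev hκ hW0 hη, H_small (2 * ((E + E1 + 1) * 2000 * 3 + 2)) hη, H_small 1 hη,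
    delta_small δ hη16, delta_small δ1 hη16, NN_le 2, NN_ge 2, big_log, eventually_ge_atTop 5,
    eventually_ge_atTop (8 * W)] with Y d1 d2 s1 s2 s3 f1 f2 f3 f4 rad hs1 hs2 hdel hdel1 nle nge hbl hY5 hY8 U H hU hYH hUH
  obtain ⟨r1, r2, r3, r4, r5⟩ := rad
  have hY0 : 0 < Y := by linarith
  have hH0 : 0 < H := by linarith
  have hH1 : 1 ≤ H := by linarith
  set L := Real.log Y with hLdef
  have hL0 : 0 < L := by linarith [hbl.2]
  set M := mm Y H with hM
  have hM0 : 0 < M := mm_pos hbl.1 hH0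
  have hHM : H ≤ η * M := by
    have := hs2 H hH0.le
    rwa [one_mul] at this
  have h1M : 1 ≤ η * M := by linarith
  have hCM := hs1 H hH0.le
  rw [← hM] at hCM
  set Δ := δ / L with hΔ
  have hΔ0 : 0 < Δ := by positivity
  rw [abs_of_pos hΔ0] at hdel
  have hΔη : Δ ≤ η / 16 := hdel.trans (min_le_left _ _)
  have hΔ16 : Δ ≤ 1 / 16 := hdel.trans (min_le_right _ _)
  set Δ1 := δ1 / L with hΔ1
  have hΔ10 : 0 < Δ1 := by positivity
  rw [abs_of_pos hΔ10] at hdel1
  have hΔ1η : Δ1 ≤ η / 16 := hdel1.trans (min_le_left _ _)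
  have hΔ116 : Δ1 ≤ 1 / 16 := hdel1.trans (min_le_right _ _)
  set V := Y ^ κ with hV
  have hHV : H ≤ V := by linarith
  have hYV : Y ≤ V := by linarith
  have hV0 : 0 < V := by linarith
  set r := 2 * W * Real.log (16 * Real.log V) with hrdef
  have hrB : Real.exp (r / (2 * W)) = 16 * Real.log V := by
    rw [hrdef, mul_div_assoc, mul_comm (2 * W), div_mul_cancel₀ _ hB0.ne', Real.exp_log (by positivity)]
  have hEr : 4 * (2 * W) ≤ Real.exp (r / (2 * W)) := by rw [hrB]; exact r1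
  have hEi : 2 * Real.exp (-(r / (2 * W))) ≤ η := by
    rw [Real.exp_neg, hrB, ← div_eq_mul_inv]
    exact r2
  have hr0 : 0 ≤ r := by
    rw [hrdef]
    exact mul_nonneg hB0.le (Real.log_nonneg (by linarith))
  have hrH : 4 * r ≤ η * H := r5.trans (mul_le_mul_of_nonneg_left hYH hη.le)
  have hrH' : 4 * r ≤ 1 / 2 * H := hrH.trans (mul_le_mul_of_nonneg_right hη2.le hH0.le)
  set V' := U + H + 2 * r with hV'
  have hV'V : V' ≤ 5 / 4 * V := by rw [hV']; linarith
  have hV'0 : 0 ≤ V' := by rw [hV']; positivity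
  -- tails
  set K : ℝ := 2 * (12 + Y ^ 2) with hK
  have hK0 : 0 ≤ K := by positivity
  have hK12 : 12 ≤ K := by rw [hK]; linarith only [sq_nonneg Y]
  have htail : 2 * K * (1 + V') * Real.exp (-(Real.exp (r / (2 * W)) / 2)) ≤ 1 := by
    rw [hrB, show 16 * Real.log V / 2 = 8 * Real.log V by ring, Real.exp_neg]
    have e4 : Real.exp (8 * Real.log V) = V ^ 8 := by
      rw [show (8:ℝ) = ((8:ℕ) : ℝ) by norm_num, ← Real.log_pow, Real.exp_log (by positivity)]
    rw [e4, ← div_eq_mul_inv, div_le_one (by positivity)]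
    have h1 : K ≤ 2 * (12 + V ^ 2) := by
      rw [hK]
      have : Y ^ 2 ≤ V ^ 2 := pow_le_pow_left₀ hY0.le hYV 2
      linarith
    have h9 : (5:ℝ) ^ 2 ≤ V ^ 2 := pow_le_pow_left₀ (by norm_num) r4 2
    have h2 : 12 + V ^ 2 ≤ 2 * V ^ 2 := by linarith only [h9]
    have h3 : 1 + V' ≤ 2 * V := by linarith
    have h4 : 16 * V ^ 3 ≤ V ^ 8 := by
      have g1 : 16 ≤ V ^ 5 := by
        calc (16:ℝ) ≤ 5 ^ 5 := by norm_num
          _ ≤ V ^ 5 := pow_le_pow_left₀ (by norm_num) r4 5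
      have g2 : 0 < V ^ 3 := by positivity
      calc 16 * V ^ 3 ≤ V ^ 5 * V ^ 3 := mul_le_mul_of_nonneg_right g1 g2.le
        _ = V ^ 8 := by ring
    calc 2 * K * (1 + V') ≤ 2 * (2 * (2 * V ^ 2)) * (2 * V) := by
          have : K ≤ 2 * (2 * V ^ 2) := by linarith
          gcongr
      _ = 16 * V ^ 3 := by ring
      _ ≤ _ := h4
  have htail12 : 2 * (12:ℝ) * (1 + V') * Real.exp (-(Real.exp (r / (2 * W)) / 2)) ≤ 1 := by
    refine le_trans ?_ htail
    gcongr
  set a := U - r with ha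
  set b := U + H + r with hb
  have hab : a ≤ b := by rw [ha, hb]; linarith
  have hba : b - a ≤ 2 * H := by rw [ha, hb]; linarith
  have hT1 : |U - 2 * r| ≤ U + H + 2 * r := by rw [abs_le]; constructor <;> linarith
  have hT2 : U - 2 * r ≤ U + H + 2 * r := by linarith
  have hN : (NN 2 Y : ℝ) ≤ Y := nle
  have hN1 : 1 ≤ NN 2 Y := nge.2
  have hpnK : ∀ x t : ℝ, 0 ≤ x → pn 2 Y x t ≤ Y ^ 2 * (1 + |t|) := by
    intro x t hx
    unfold pn
    have h1 : ‖PP 2 Y ((x : ℂ) + t * I)‖ ≤ Y := (PP_le 2 Y (by simpa using hx)).trans hN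
    have h2 : ‖PP 2 Y ((x : ℂ) + t * I)‖ ^ 2 ≤ Y ^ 2 := pow_le_pow_left₀ (norm_nonneg _) h1 2
    exact h2.trans (le_mul_of_one_le_right (sq_nonneg Y) (by linarith only [abs_nonneg t]))
  -- mean squares
  have PI : ∀ x P : ℝ, 3 / 8 ≤ x → x ≤ 5 / 8 →
      (∫ t in (U - 2 * r)..(U + H + 2 * r), pn 2 Y x t) ≤ P * M →
      ∫⁻ t : ℝ, ENNReal.ofReal (‖QP 2 Y ((x : ℂ) + t * I)‖ * om (Real.cos ((x - 1 / 2) / (2 * W))) a b (2 * W) t) ≤
        ENNReal.ofReal ((P + η) * M) := by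
    intro x P hx1 hx2 hP
    have h1 := win2 (g := fun t => pn 2 Y x t) (B := 2 * W) (T := U) (V := U + H) (r := r) (K := K) (x := x)
      hB0 hT1 hT2 hEr (by linarith) (by linarith) hK0 (fun t => pn_nonneg _ _ _ _)
      (fun t => by
        have h3 := hpnK x t (by linarith)
        rw [hK]
        exact h3.trans (mul_le_mul_of_nonneg_right (by linarith only [sq_nonneg Y]) (by positivity)))
      (pn_cont 2 Y x) htail
    refine le_trans (lintegral_mono fun t => ENNReal.ofReal_le_ofReal ?_) (h1.trans (ENNReal.ofReal_le_ofReal ?_))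
    · refine mul_le_mul_of_nonneg_right ?_ (om_pos _ _ _ _ _).le
      rw [QP_norm]
      exact le_rfl
    · rw [add_mul]
      linarith
  have hlen : U + H + 2 * r - (U - 2 * r) ≤ (1 + η) * H := by linarith
  have eL : ∀ x : ℝ, 1 / 2 + -x / L = 1 / 2 - x / L := fun x => by ring
  have P1 := PI (1 / 2 + Δ) _ (by linarith) (by linarith) (s1 H _ _ hYH hlen hT2)
  have P3 := PI (1 / 2 + Δ1) _ (by linarith) (by linarith) (s3 H _ _ hYH hlen hT2)
  have P2 : ∫⁻ t : ℝ, ENNReal.ofReal (‖QP 2 Y (((1 / 2 - Δ : ℝ) : ℂ) + t * I)‖ *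
      om (Real.cos ((1 / 2 - Δ - 1 / 2) / (2 * W))) a b (2 * W) t) ≤
        ENNReal.ofReal (((1 + η) * (gg (-δ) + η) + η + η) * M) := by
    have h1 := s2 H _ _ hYH hlen hT2
    rw [eL] at h1
    exact PI (1 / 2 - Δ) _ (by linarith) (by linarith) h1
  have epp : ∀ g : ℝ, (1 + η) * (g + η) + η + η = p g η := fun g => by
    simp only [hp]
    ring
  rw [epp] at P1 P2 P3
  have gnn : ∀ x : ℝ, 0 ≤ gg x := by
    intro x
    rw [gg_eq]
    have h1 := A0_pos
    have h2 : 0 ≤ hI q4 (2 * x) := by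
      unfold hI
      refine intervalIntegral.integral_nonneg zero_le_one fun y hy => ?_
      have := q4_pos
      have := Real.rpow_nonneg hy.1 (q4 - 1)
      positivity
    positivity
  have hpp : ∀ g : ℝ, 0 ≤ g → 0 ≤ p g η := fun g hg => by simp only [hp]; positivity
  have pp1 := hpp _ (gnn δ)
  have pp2 := hpp _ (gnn (-δ))
  have pp3 := hpp _ (gnn δ1)
  -- decay
  have hQb : ∀ s : ℂ, 0 ≤ s.re → ‖QP 2 Y s‖ ≤ Y ^ 2 := by
    intro s hs
    rw [QP_norm]
    exact pow_le_pow_left₀ (norm_nonneg _) ((PP_le 2 Y hs).trans hN) 2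
  have hQf : ∀ s : ℂ, 2 ≤ s.re → ‖riemannZeta s - QP 2 Y s‖ * (NN 2 Y : ℝ) ^ s.re ≤ Z2 * (NN 2 Y : ℝ) ^ 2 := by
    intro s hs
    have h1 := zeta_sub_pow_le (v := 2) (N := NN 2 Y) (by norm_num) hN1 hs
    refine h1.trans ?_
    rw [mul_comm]
    refine mul_le_mul_of_nonneg_right ?_ (by positivity)
    rw [hZ2]
    linarith
  set FQ := Ph (QP 2 Y) a b (2 * W) with hFQ
  set FZ := Ph ZZf a b (2 * W) with hFZ
  -- finiteness on the left line
  have hfin : LM FQ (1 / 2 - Δ) ≠ ⊤ := by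
    have h1 := LM_left (Q := QP 2 Y) (a := a) (b := b) (B := 2 * W) (x := 1 / 2 - Δ) (by linarith) (by linarith)
    have h2 := win2 (g := fun t => (1 - (1 / 2 - Δ)) / (1 / 2 - Δ) * dn (QP 2 Y) (1 / 2 - Δ) t) (B := 2 * W) (T := U)
      (V := U + H) (r := r) (K := K) (x := 1 / 2 - Δ)
      hB0 hT1 hT2 hEr (by linarith) (by linarith) hK0
      (fun t => mul_nonneg (div_nonneg (by linarith) (by linarith)) (dn_nonneg _ _ _))
      (fun t => by
        have h3 := hpnK (1 / 2 - Δ) t (by linarith)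
        have h4 := zn_le' (σ := 1 / 2 - Δ) (t := t) (by linarith) (by linarith)
        have h5 := tr2 2 Y (1 / 2 - Δ) t
        have h6 : (1 - (1 / 2 - Δ)) / (1 / 2 - Δ) ≤ 2 := by
          rw [div_le_iff₀ (by linarith)]; linarith
        have h7 : dn (QP 2 Y) (1 / 2 - Δ) t ≤ (12 + Y ^ 2) * (1 + |t|) := by
          rw [add_mul]; linarith
        calc (1 - (1 / 2 - Δ)) / (1 / 2 - Δ) * dn (QP 2 Y) (1 / 2 - Δ) t ≤ 2 * ((12 + Y ^ 2) * (1 + |t|)) :=
              mul_le_mul h6 h7 (dn_nonneg _ _ _) (by norm_num)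
          _ = K * (1 + |t|) := by rw [hK]; ring)
      (continuous_const.mul (dn_cont (QP_diff 2 Y) (by linarith))) htail
    exact ne_top_of_le_ne_top ENNReal.ofReal_ne_top (h1.trans h2)
  set A := (LM FQ (1 / 2 - Δ)).toReal + H with hA
  have hA0 : 0 < A := by
    have := ENNReal.toReal_nonneg (a := LM FQ (1 / 2 - Δ))
    linarith
  have hHA : H ≤ A := by
    have := ENNReal.toReal_nonneg (a := LM FQ (1 / 2 - Δ))
    linarith
  have LQ : LM FQ (1 / 2 - Δ) ≤ ENNReal.ofReal A := by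
    rw [← ENNReal.ofReal_toReal hfin]
    exact ENNReal.ofReal_le_ofReal (by linarith)
  have L1 := d1 (QP 2 Y) (Y ^ 2) a b A H (QP_diff 2 Y) (by positivity) hQb hQf hab hba hYH hHA LQ
  have L2 := d2 (QP 2 Y) (Y ^ 2) a b A H (QP_diff 2 Y) (by positivity) hQb hQf hab hba hYH hHA LQ
  -- zeta on the right lines
  have Z1 : LM FZ (1 / 2 + Δ) ≤ ENNReal.ofReal ((q + η) * A + p (gg δ) η * M) := by
    refine (LM_tri (QP_diff 2 Y) (by linarith)).trans ?_
    rw [ENNReal.ofReal_add (by positivity) (by positivity)]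
    exact add_le_add L1 P1
  have Z3 : LM FZ (1 / 2 + Δ1) ≤ ENNReal.ofReal ((q1 + η) * A + p (gg δ1) η * M) := by
    refine (LM_tri (QP_diff 2 Y) (by linarith)).trans ?_
    rw [ENNReal.ofReal_add (by positivity) (by positivity)]
    exact add_le_add L2 P3
  -- the functional equation
  have hXV : V' + 1 ≤ 2 * V := by linarith
  have FE : ∀ D E' m : ℝ, 0 ≤ D → D ≤ η / 16 → D ≤ 1 / 16 → 0 ≤ m →
      (1 / 2 + D) / (1 / 2 - D) * (2 * V) ^ D / (1 - 8 * D) ≤ E' → (2 * V) ^ D ≤ E + E1 + 1 →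
      LM FZ (1 / 2 + D) ≤ ENNReal.ofReal m → LM FZ (1 / 2 - D) ≤ ENNReal.ofReal (E' * m + η * M) := by
    intro D E' m hD0 hDη hD16 hm hE' hXD hLM
    have h1 := fe_win (B := 2 * W) (U := U) (H := H) (r := r) (V := V') (X := 2 * V) (Δ := D) (by linarith) hU hH0.le
      hr0 hEr hD0 hD16 hV' hXV htail12
    have hρ2 : (1 / 2 + D) / (1 / 2 - D) ≤ 2 := by
      rw [div_le_iff₀ (by linarith)]; linarith
    have hρ0 : 0 ≤ (1 / 2 + D) / (1 / 2 - D) := div_nonneg (by linarith) (by linarith)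
    have hXD0 : 0 < (2 * V) ^ D := Real.rpow_pos_of_pos (by linarith) _
    have hE'0 : 0 ≤ E' := le_trans (div_nonneg (mul_nonneg hρ0 hXD0.le) (by linarith)) hE'
    refine h1.trans ?_
    rw [ENNReal.ofReal_add (p := E' * m) (q := η * M) (by positivity) (by positivity), ENNReal.ofReal_mul hE'0,
      ← ENNReal.ofReal_mul hρ0]
    refine add_le_add (mul_le_mul' (ENNReal.ofReal_le_ofReal hE') hLM) (ENNReal.ofReal_le_ofReal ?_)
    refine le_trans ?_ hCM
    have h3 : H + 2 * r + 4 * (2 * W) ≤ 3 * H := by linarith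
    have h4 : (2 * V) ^ D * 2000 * (H + 2 * r + 4 * (2 * W)) + 1 ≤ ((E + E1 + 1) * 2000 * 3 + 2) * H := by
      have h5 : (2 * V) ^ D * 2000 * (H + 2 * r + 4 * (2 * W)) ≤ (E + E1 + 1) * 2000 * (3 * H) := by
        gcongr
      linarith
    have h6 : 0 ≤ (2 * V) ^ D * 2000 * (H + 2 * r + 4 * (2 * W)) + 1 := by positivity
    calc (1 / 2 + D) / (1 / 2 - D) * ((2 * V) ^ D * 2000 * (H + 2 * r + 4 * (2 * W)) + 1) ≤
        2 * (((E + E1 + 1) * 2000 * 3 + 2) * H) := mul_le_mul hρ2 h4 h6 (by norm_num)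
      _ = _ := by ring
  have Z2' := FE Δ (E + η) _ hΔ0.le hΔη hΔ16 (by positivity) f1.le (by linarith) Z1
  have Z4 := FE Δ1 (E1 + η) _ hΔ10.le hΔ1η hΔ116 (by positivity) f2.le (by linarith) Z3
  -- closing the loop on the left line
  have hclose : A ≤ Xf η * M := by
    have h1 := LM_tri_left (QP_diff 2 Y) (a := a) (b := b) (B := 2 * W) (x := 1 / 2 - Δ) (by linarith) (by linarith)
    have hρ : (1 - (1 / 2 - Δ)) / (1 / 2 - Δ) ≤ 1 + η := by
      rw [div_le_iff₀ (by linarith)]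
      have h9 : η * Δ ≤ η * (1 / 16) := mul_le_mul_of_nonneg_left hΔ16 hη.le
      linarith only [h9, hΔη, hη]
    have hρ0 : 0 ≤ (1 - (1 / 2 - Δ)) / (1 / 2 - Δ) := div_nonneg (by linarith) (by linarith)
    have h2 : LM FQ (1 / 2 - Δ) ≤ ENNReal.ofReal (((E + η) * ((q + η) * A + p (gg δ) η * M) + η * M) +
        (1 + η) * (p (gg (-δ)) η * M)) := by
      refine h1.trans ?_
      rw [ENNReal.ofReal_add (by positivity) (by positivity)]
      refine add_le_add Z2' ?_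
      refine (mul_le_mul' (ENNReal.ofReal_le_ofReal hρ) P2).trans ?_
      rw [← ENNReal.ofReal_mul (by linarith)]
    have h3 : (LM FQ (1 / 2 - Δ)).toReal ≤ ((E + η) * ((q + η) * A + p (gg δ) η * M) + η * M) +
        (1 + η) * (p (gg (-δ)) η * M) := ENNReal.toReal_le_of_le_ofReal (by positivity) h2
    have h4 : A * (1 - (E + η) * (q + η)) ≤
        ((E + η) * p (gg δ) η + (1 + η) * p (gg (-δ)) η + 2 * η) * M := by
      have h6 : A ≤ ((E + η) * ((q + η) * A + p (gg δ) η * M) + η * M) + (1 + η) * (p (gg (-δ)) η * M) + η * M := by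
        have h7 : A - H = (LM FQ (1 / 2 - Δ)).toReal := by rw [hA]; ring
        rw [← h7] at h3
        linarith only [h3, hHM]
      have h8 : ((E + η) * ((q + η) * A + p (gg δ) η * M) + η * M) + (1 + η) * (p (gg (-δ)) η * M) + η * M =
          A * ((E + η) * (q + η)) + ((E + η) * p (gg δ) η + (1 + η) * p (gg (-δ)) η + 2 * η) * M := by ring
      rw [h8] at h6
      rw [mul_sub, mul_one]
      linarith only [h6]
    have h5 : 0 < 1 - (E + η) * (q + η) := by linarith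
    simp only [hXf]
    rw [div_mul_eq_mul_div, le_div_iff₀ h5]
    exact h4
  -- the midpoint inequality
  obtain ⟨C, hC⟩ := Ph_bdd2 (Q := ZZf) (C1 := 0) le_rfl (fun z _ => by unfold ZZf; simp) a b (B := 2 * W) (by linarith)
  have hmid := LM_mid (F := FZ) (x := 1 / 2) (Δ := Δ1) (C := C) (l := l) hΔ10 hl0
    (fun s hs => by
      have h1 : |s.re - 1 / 2| < Δ1 := hs
      have h2 := abs_lt.mp h1
      exact (Ph_diff (differentiable_const _) a b _ (by linarith)).differentiableWithinAt)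
    (fun s hs => by
      have h1 : |s.re - 1 / 2| ≤ Δ1 := hs
      have h2 := abs_le.mp h1
      exact (Ph_diff (differentiable_const _) a b _ (by linarith)).continuousAt.continuousWithinAt)
    (fun s hs => by
      have h2 := abs_le.mp hs
      exact hC s (by linarith) (by linarith))
  set mr := (q1 + η) * A + p (gg δ1) η * M with hmr
  have hmr0 : 0 ≤ mr := by positivity
  have Zmid : LM FZ (1 / 2) ≤ ENNReal.ofReal (1 / 2 * (l * mr + l⁻¹ * ((E1 + η) * mr + η * M))) := by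
    refine hmid.trans ?_
    calc _ ≤ ENNReal.ofReal (1 / 2) * (ENNReal.ofReal l * ENNReal.ofReal mr +
          ENNReal.ofReal l⁻¹ * ENNReal.ofReal ((E1 + η) * mr + η * M)) := by gcongr
      _ = _ := by
        rw [← ENNReal.ofReal_mul hl0.le, ← ENNReal.ofReal_mul (inv_pos.mpr hl0).le,
          ← ENNReal.ofReal_add (by positivity) (by positivity), ← ENNReal.ofReal_mul (by norm_num)]
  have hfinal := (win_lower (B := 2 * W) (U := U) (H := H) (r := r) hB0 hH0.le (by linarith)).trans Zmid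
  rw [ENNReal.ofReal_le_ofReal_iff (by positivity)] at hfinal
  set I := ∫ t in U..(U + H), zn (1 / 2) t with hI
  have hI0 : 0 ≤ I := intervalIntegral.integral_nonneg (by linarith) fun t _ => zn_nonneg _ _
  have k1 : (1 - η) * I ≤ 1 / 2 * (l * mr + l⁻¹ * ((E1 + η) * mr + η * M)) :=
    (mul_le_mul_of_nonneg_right (by linarith) hI0).trans hfinal
  have k2 : mr ≤ m1 η * M := by
    rw [hmr]
    simp only [hm1]
    have h7 : (q1 + η) * A ≤ (q1 + η) * (Xf η * M) := mul_le_mul_of_nonneg_left hclose (by positivity)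
    calc (q1 + η) * A + p (gg δ1) η * M ≤ (q1 + η) * (Xf η * M) + p (gg δ1) η * M := by linarith
      _ = _ := by ring
  have k3 : 1 / 2 * (l * mr + l⁻¹ * ((E1 + η) * mr + η * M)) ≤
      1 / 2 * (l * (m1 η * M) + l⁻¹ * ((E1 + η) * (m1 η * M) + η * M)) := by gcongr
  have k4 : 1 / 2 * (l * (m1 η * M) + l⁻¹ * ((E1 + η) * (m1 η * M) + η * M)) = (1 - η) * (Φ η * M) := by
    have h5 : 1 - η ≠ 0 := by linarith
    simp only [hΦ]
    field_simp
  have k5 : (1 - η) * I ≤ (1 - η) * (Φ η * M) := by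
    rw [← k4]
    exact k1.trans k3
  have k6 : I ≤ Φ η * M := le_of_mul_le_mul_left k5 (by linarith)
  exact k6.trans (mul_le_mul_of_nonneg_right hΦη.le hM0.le)

end Pool.Agent.K7.H50.MU
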