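import Pool.Agent.K7.H50.MU.A4

set_option autoImplicit false

/-! The upper bound for the first moment in short windows: the constant. -/

namespace Pool.Agent.K7.H50.MU

open MeasureTheory Complex Set Filter Topology Pool.Agent.H306R2 Pool.Agent.W184 Pool.Agent.R313.FM
open Pool.Agent.K7.H50.MZ
open scoped ENNReal

lemma k3 : hI q4 3 ≤ 0.6853 := by
  have h := hI_up (s := q4) (a := 3) q4_pos (by norm_num) 20 (by decide)
  simp only [Finset.sum_range_succ, Finset.sum_range_zero, Nat.factorial] at h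
  refine h.trans ?_
  norm_num

lemma k32 : hI q4 (3 / 2) ≤ 0.7917 := by
  have h := hI_up (s := q4) (a := 3 / 2) q4_pos (by norm_num) 14 (by decide)
  simp only [Finset.sum_range_succ, Finset.sum_range_zero, Nat.factorial] at h
  refine h.trans ?_
  norm_num

lemma km3 : hI q4 (-3) ≤ 2.8036 := by
  have h := hI_neg_up (s := q4) (a := 3) q4_pos (by norm_num) 20
  simp only [Finset.sum_range_succ, Finset.sum_range_zero, Nat.factorial] at h
  have h2 : Real.exp 3 * (3 ^ 20 / ((Nat.factorial 20 : ℕ) : ℝ)) * (q4 / (q4 + (20:ℕ))) ≤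
      100 * (3 ^ 20 / ((Nat.factorial 20 : ℕ) : ℝ)) * (q4 / (q4 + (20:ℕ))) := by
    have h3 : Real.exp 3 ≤ 100 := (Real.exp_le_exp.mpr (by norm_num)).trans exp5
    have := q4_pos
    gcongr
  simp only [Nat.factorial] at h2
  refine h.trans ((add_le_add_right h2 _).trans ?_)
  norm_num

lemma x15n : Real.exp (-(3 / 2)) ≤ 0.22314 := by
  have h := exp_up (u := 3 / 2) (by norm_num) 12 (by decide)
  simp only [Finset.sum_range_succ, Finset.sum_range_zero, Nat.factorial] at h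
  refine h.trans ?_
  norm_num

lemma x15 : Real.exp (3 / 2) ≤ 4.4818 := by
  have h := exp_lo (u := 3 / 2) (by norm_num) 15 (by decide)
  simp only [Finset.sum_range_succ, Finset.sum_range_zero, Nat.factorial] at h
  rw [exp_inv]
  rw [inv_le_comm₀ (Real.exp_pos _) (by norm_num)]
  refine le_trans ?_ h
  norm_num

lemma x34 : Real.exp (3 / 4) ≤ 2.1171 := by
  have h := exp_lo (u := 3 / 4) (by norm_num) 11 (by decide)
  simp only [Finset.sum_range_succ, Finset.sum_range_zero, Nat.factorial] at h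
  rw [exp_inv]
  rw [inv_le_comm₀ (Real.exp_pos _) (by norm_num)]
  refine le_trans ?_ h
  norm_num

lemma x38 : Real.exp (3 / 8) ≤ 1.5 := by
  have h := exp_lo (u := 3 / 8) (by norm_num) 7 (by decide)
  simp only [Finset.sum_range_succ, Finset.sum_range_zero, Nat.factorial] at h
  rw [exp_inv]
  rw [inv_le_comm₀ (Real.exp_pos _) (by norm_num)]
  refine le_trans ?_ h
  norm_num

/-- the numerical inequality -/
lemma num_up {u : ℝ} (h0 : 0 < u) (h1 : u ≤ 1) :
    Real.exp ((2 - u) * (3 / 4) / 2) * (Real.exp (-(3 / 2 + 3 / 4)) * ((hI q4 (-3) +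
      Real.exp ((2 - u) * (3 / 2)) * hI q4 3) / (1 - Real.exp ((2 - u) * (3 / 2)) * Real.exp (-(3 / 2 + 3 / 2)))) +
      hI q4 (3 / 2)) < 5 / 2 / u := by
  have hh : ∀ x : ℝ, 0 ≤ hI q4 x := by
    intro x
    unfold hI
    refine intervalIntegral.integral_nonneg zero_le_one fun y hy => ?_
    have := q4_pos
    have := Real.rpow_nonneg hy.1 (q4 - 1)
    positivity
  set a := hI q4 (-3) with ha
  set b := hI q4 3 with hb
  set d := hI q4 (3 / 2) with hd
  have ha0 : 0 ≤ a := hh _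
  have hb0 : 0 ≤ b := hh _
  have hd0 : 0 ≤ d := hh _
  have e1 : Real.exp ((2 - u) * (3 / 2)) * Real.exp (-(3 / 2 + 3 / 2)) = Real.exp (-(3 / 2 * u)) := by
    rw [← Real.exp_add]; congr 1; ring
  rw [e1]
  have hs : 3 / 2 * u ≤ Real.exp (3 / 4 * u) * (1 - Real.exp (-(3 / 2 * u))) := by
    have h2 := Real.self_le_sinh_iff.mpr (show (0:ℝ) ≤ 3 / 4 * u by positivity)
    rw [Real.sinh_eq] at h2
    have e2 : Real.exp (3 / 4 * u) * (1 - Real.exp (-(3 / 2 * u))) = Real.exp (3 / 4 * u) - Real.exp (-(3 / 4 * u)) := by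
      rw [mul_sub, mul_one, ← Real.exp_add]
      congr 2
      ring
    rw [e2]
    linarith
  have hden : 0 < 1 - Real.exp (-(3 / 2 * u)) := by
    have : Real.exp (-(3 / 2 * u)) < 1 := by
      rw [Real.exp_lt_one_iff]; linarith
    linarith
  rw [lt_div_iff₀ h0]
  -- the quotient
  have hquo : (a + Real.exp ((2 - u) * (3 / 2)) * b) / (1 - Real.exp (-(3 / 2 * u))) * u ≤
      2 / 3 * Real.exp (3 / 4 * u) * (a + Real.exp ((2 - u) * (3 / 2)) * b) := by
    rw [div_mul_eq_mul_div, div_le_iff₀ hden]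
    have h3 : 0 ≤ a + Real.exp ((2 - u) * (3 / 2)) * b := by positivity
    calc (a + Real.exp ((2 - u) * (3 / 2)) * b) * u =
        2 / 3 * (a + Real.exp ((2 - u) * (3 / 2)) * b) * (3 / 2 * u) := by ring
      _ ≤ 2 / 3 * (a + Real.exp ((2 - u) * (3 / 2)) * b) * (Real.exp (3 / 4 * u) * (1 - Real.exp (-(3 / 2 * u)))) := by
          gcongr
      _ = _ := by ring
  set P := (a + Real.exp ((2 - u) * (3 / 2)) * b) / (1 - Real.exp (-(3 / 2 * u))) with hP
  have step : Real.exp ((2 - u) * (3 / 4) / 2) * (Real.exp (-(3 / 2 + 3 / 4)) * P + d) * u ≤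
      Real.exp ((2 - u) * (3 / 4) / 2) * (Real.exp (-(3 / 2 + 3 / 4)) *
        (2 / 3 * Real.exp (3 / 4 * u) * (a + Real.exp ((2 - u) * (3 / 2)) * b)) + d * u) := by
    have e3 : Real.exp ((2 - u) * (3 / 4) / 2) * (Real.exp (-(3 / 2 + 3 / 4)) * P + d) * u =
        Real.exp ((2 - u) * (3 / 4) / 2) * (Real.exp (-(3 / 2 + 3 / 4)) * (P * u) + d * u) := by ring
    rw [e3]
    gcongr
  refine lt_of_le_of_lt step ?_
  have e4 : Real.exp ((2 - u) * (3 / 4) / 2) * (Real.exp (-(3 / 2 + 3 / 4)) *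
        (2 / 3 * Real.exp (3 / 4 * u) * (a + Real.exp ((2 - u) * (3 / 2)) * b)) + d * u) =
      2 / 3 * a * Real.exp (-(3 / 2)) * Real.exp (3 / 8 * u) + 2 / 3 * b * Real.exp (3 / 2) * Real.exp (-(9 / 8 * u)) +
        d * Real.exp (3 / 4) * (u * Real.exp (-(3 / 8 * u))) := by
    have f1 : Real.exp ((2 - u) * (3 / 4) / 2) * Real.exp (-(3 / 2 + 3 / 4)) * Real.exp (3 / 4 * u) =
        Real.exp (-(3 / 2)) * Real.exp (3 / 8 * u) := by
      rw [← Real.exp_add, ← Real.exp_add, ← Real.exp_add]; congr 1; ring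
    have f2 : Real.exp (-(3 / 2)) * Real.exp (3 / 8 * u) * Real.exp ((2 - u) * (3 / 2)) =
        Real.exp (3 / 2) * Real.exp (-(9 / 8 * u)) := by
      rw [← Real.exp_add, ← Real.exp_add, ← Real.exp_add]; congr 1; ring
    have f3 : Real.exp ((2 - u) * (3 / 4) / 2) = Real.exp (3 / 4) * Real.exp (-(3 / 8 * u)) := by
      rw [← Real.exp_add]; congr 1; ring
    calc _ = 2 / 3 * (a * (Real.exp ((2 - u) * (3 / 4) / 2) * Real.exp (-(3 / 2 + 3 / 4)) * Real.exp (3 / 4 * u)) +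
          b * ((Real.exp ((2 - u) * (3 / 4) / 2) * Real.exp (-(3 / 2 + 3 / 4)) * Real.exp (3 / 4 * u)) *
            Real.exp ((2 - u) * (3 / 2)))) + d * (Real.exp ((2 - u) * (3 / 4) / 2) * u) := by ring
      _ = _ := by
        rw [f1, f2, f3]
        ring
  rw [e4]
  -- bounds for the exponentials
  have g1 : Real.exp (3 / 8 * u) ≤ 1 + 3 / 8 * u + (3 / 8 * u) ^ 2 / 2 + 1.5 * ((3 / 8 * u) ^ 3 / 6) := by
    have h := exp_taylor_up 3 (3 / 8) (3 / 8 * u) (by positivity) (by linarith)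
    simp only [Finset.sum_range_succ, Finset.sum_range_zero, Nat.factorial] at h
    have h5 : Real.exp (3 / 8) * ((3 / 8 * u) ^ 3 / ((3 * 2 * 1 : ℕ) : ℝ)) ≤ 1.5 * ((3 / 8 * u) ^ 3 / ((3 * 2 * 1 : ℕ) : ℝ)) :=
      mul_le_mul_of_nonneg_right x38 (by positivity)
    norm_num at h h5 ⊢
    linarith
  have g2 : Real.exp (-(9 / 8 * u)) ≤ 1 - 9 / 8 * u + (9 / 8 * u) ^ 2 / 2 - (9 / 8 * u) ^ 3 / 6 + (9 / 8 * u) ^ 4 / 24 := by
    have h := exp_up (u := 9 / 8 * u) (by positivity) 4 (by decide)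
    simp only [Finset.sum_range_succ, Finset.sum_range_zero, Nat.factorial] at h
    refine h.trans (le_of_eq ?_)
    push_cast
    ring
  have g3 : Real.exp (-(3 / 8 * u)) ≤ 1 - 3 / 8 * u + (3 / 8 * u) ^ 2 / 2 := by
    have h := exp_up (u := 3 / 8 * u) (by positivity) 2 (by decide)
    simp only [Finset.sum_range_succ, Finset.sum_range_zero, Nat.factorial] at h
    refine h.trans (le_of_eq ?_)
    push_cast
    ring
  have p1 : 2 / 3 * a * Real.exp (-(3 / 2)) ≤ 0.4171 := by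
    calc 2 / 3 * a * Real.exp (-(3 / 2)) ≤ 2 / 3 * 2.8036 * 0.22314 := by
          have := km3
          have := x15n
          gcongr
      _ ≤ _ := by norm_num
  have p2 : 2 / 3 * b * Real.exp (3 / 2) ≤ 2.0477 := by
    calc 2 / 3 * b * Real.exp (3 / 2) ≤ 2 / 3 * 0.6853 * 4.4818 := by
          have := k3
          have := x15
          gcongr
      _ ≤ _ := by norm_num
  have p3 : d * Real.exp (3 / 4) ≤ 1.6762 := by
    calc d * Real.exp (3 / 4) ≤ 0.7917 * 2.1171 := by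
          have := k32
          have := x34
          gcongr
      _ ≤ _ := by norm_num
  have q1 : 2 / 3 * a * Real.exp (-(3 / 2)) * Real.exp (3 / 8 * u) ≤
      0.4171 * (1 + 3 / 8 * u + (3 / 8 * u) ^ 2 / 2 + 1.5 * ((3 / 8 * u) ^ 3 / 6)) :=
    mul_le_mul p1 g1 (Real.exp_pos _).le (by norm_num)
  have q2 : 2 / 3 * b * Real.exp (3 / 2) * Real.exp (-(9 / 8 * u)) ≤
      2.0477 * (1 - 9 / 8 * u + (9 / 8 * u) ^ 2 / 2 - (9 / 8 * u) ^ 3 / 6 + (9 / 8 * u) ^ 4 / 24) :=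
    mul_le_mul p2 g2 (Real.exp_pos _).le (by norm_num)
  have q3 : d * Real.exp (3 / 4) * (u * Real.exp (-(3 / 8 * u))) ≤
      1.6762 * (u * (1 - 3 / 8 * u + (3 / 8 * u) ^ 2 / 2)) :=
    mul_le_mul p3 (mul_le_mul_of_nonneg_left g3 h0.le) (by positivity) (by norm_num)
  have w1 : 0 ≤ u * (1 - u) := mul_nonneg h0.le (by linarith)
  have w2 : 0 ≤ u ^ 2 * (1 - u) := mul_nonneg (sq_nonneg u) (by linarith)
  have w3 : 0 ≤ u ^ 3 * (1 - u) := mul_nonneg (by positivity) (by linarith)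
  have fin : 0.4171 * (1 + 3 / 8 * u + (3 / 8 * u) ^ 2 / 2 + 1.5 * ((3 / 8 * u) ^ 3 / 6)) +
      2.0477 * (1 - 9 / 8 * u + (9 / 8 * u) ^ 2 / 2 - (9 / 8 * u) ^ 3 / 6 + (9 / 8 * u) ^ 4 / 24) +
      1.6762 * (u * (1 - 3 / 8 * u + (3 / 8 * u) ^ 2 / 2)) < 5 / 2 := by
    nlinarith [w1, w2, w3, mul_nonneg w1 w1, mul_nonneg h0.le (sub_nonneg.2 h1), h0, h1,
      mul_nonneg w1 (sub_nonneg.2 h1)]
  linarith

end Pool.Agent.K7.H50.MU
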