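import Pool.Agent.K7.H50.MU.A5

set_option autoImplicit false

/-! The upper bound for the first moment in short windows: final form. -/

namespace Pool.Agent.K7.H50.MU

open MeasureTheory Complex Set Filter Topology Pool.Agent.H306R2 Pool.Agent.W184 Pool.Agent.R313.FM
open Pool.Agent.K7.H50.MZ
open scoped ENNReal

theorem upper_theta (θ : ℝ) (h1 : 1 / 2 < θ) (h2 : θ ≤ 1) :
    ∀ᶠ T : ℝ in atTop, ∀ U H : ℝ, 0 ≤ U → U + H ≤ T → T ^ θ ≤ H →
      ∫ t in U..(U + H), zn (1 / 2) t ≤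
        5 / 2 * (θ ^ ((5:ℝ) / 4) / (2 * θ - 1)) * A0 * (H * Real.log T ^ ((1:ℝ) / 4)) := by
  have hθ0 : 0 < θ := by linarith
  have hd : 0 < 2 * θ - 1 := by linarith
  set u : ℝ := 2 - 1 / θ with hu
  have hu0 : 0 < u := by
    have : 1 / θ < 2 := by rw [div_lt_iff₀ hθ0]; linarith
    linarith
  have hu1 : u ≤ 1 := by
    have : 1 ≤ 1 / θ := by rw [le_div_iff₀ hθ0]; linarith
    linarith
  have hκ : 1 / θ = 2 - u := by rw [hu]; ring
  have hκ0 : 0 < 1 / θ := by positivity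
  have huθ : u = (2 * θ - 1) / θ := by rw [hu]; field_simp
  have hA := A0_pos
  have hq : Real.exp (1 / θ * (3 / 2)) * Real.exp (-(3 / 2 + 3 / 2)) < 1 := by
    rw [← Real.exp_add, Real.exp_lt_one_iff, hκ]
    linarith
  have hc : Real.exp (1 / θ * (3 / 4) / 2) * (Real.exp (-(3 / 2 + 3 / 4)) * ((gg (-(3 / 2)) +
      Real.exp (1 / θ * (3 / 2)) * gg (3 / 2)) / (1 - Real.exp (1 / θ * (3 / 2)) * Real.exp (-(3 / 2 + 3 / 2)))) +
      gg (3 / 4)) < A0 * (5 / 2 / u) := by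
    have := mul_lt_mul_of_pos_left (num_up hu0 hu1) hA
    refine lt_of_eq_of_lt ?_ this
    rw [gg_eq, gg_eq, gg_eq, hκ]
    rw [show (2:ℝ) * -(3 / 2) = -3 by norm_num, show (2:ℝ) * (3 / 2) = 3 by norm_num,
      show (2:ℝ) * (3 / 4) = 3 / 2 by norm_num]
    ring
  have hmain := core_up (κ := 1 / θ) (δ := 3 / 2) (δ1 := 3 / 4) hκ0 (by norm_num) (by norm_num) hq hc
  have hT := (tendsto_rpow_atTop hθ0).eventually hmain
  filter_upwards [hT, eventually_gt_atTop 1] with T hT1 hT2 U H hU hUH hH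
  have hT0 : 0 < T := by linarith
  have e1 : (T ^ θ) ^ (1 / θ) = T := by
    rw [← Real.rpow_mul hT0.le, mul_one_div, div_self hθ0.ne', Real.rpow_one]
  have h3 := hT1 U H hU hH (by rw [e1]; exact hUH)
  refine h3.trans (le_of_eq ?_)
  unfold mm
  have e2 : (kh ^ 2 : ℝ) = 1 / 4 := by unfold kh; norm_num
  have hL : 0 < Real.log T := Real.log_pos hT2
  rw [e2, Real.log_rpow hT0, Real.mul_rpow hθ0.le hL.le, huθ]
  have e3 : θ ^ ((5:ℝ) / 4) = θ * θ ^ ((1:ℝ) / 4) := by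
    rw [← Real.rpow_one_add' hθ0.le (by norm_num)]
    norm_num
  rw [e3]
  field_simp

end Pool.Agent.K7.H50.MU
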